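import Mathlib

namespace Pool.Agent.Results.MP_8926dc_co.Counter

/-- f_j(s,t) = C(s,j) + C(t,j-1). -/
def f (j s t : ℕ) : ℕ := s.choose j + t.choose (j - 1)

/-- K_8 minus the two disjoint edges 01 and 23. -/
def G8 : SimpleGraph (Fin 8) :=
  SimpleGraph.fromRel (fun a b => ¬ (a.val / 2 = b.val / 2 ∧ a.val < 4))

instance : DecidableRel G8.Adj := fun a b => by
  unfold G8
  rw [SimpleGraph.fromRel_adj]
  infer_instance

lemma c3 : (G8.cliqueFinset 3).card = 44 := by
  decide +kernel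

lemma c4 : (G8.cliqueFinset 4).card = 41 := by
  decide +kernel

theorem result : ¬ ∀ p r s t : ℕ, 3 ≤ p → p < r → r ≤ s → p ≤ t + 2 → t < s →
    ∀ (n : ℕ) (G : SimpleGraph (Fin n)),
      (G.cliqueSet p).ncard + 1 ≤ f p s (t + 1) → (G.cliqueSet r).ncard ≤ f r s t := by
  intro h
  have h1 := h 3 4 7 4 (by norm_num) (by norm_num) (by norm_num) (by norm_num) (by norm_num) 8 G8
  have e3 : (G8.cliqueSet 3).ncard = 44 := by
    rw [← SimpleGraph.coe_cliqueFinset, Set.ncard_coe_finset, c3]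
  have e4 : (G8.cliqueSet 4).ncard = 41 := by
    rw [← SimpleGraph.coe_cliqueFinset, Set.ncard_coe_finset, c4]
  rw [e3, e4] at h1
  have := h1 (by decide)
  revert this
  decide

end Pool.Agent.Results.MP_8926dc_co.Counter
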